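import Pool.Agent.DPS.Stmts

/-!
Squad DPS (MP_d97b4e_co), row SPE.
-/

namespace Pool.Agent.DPS.H56

open Finset Polynomial Pool.Agent.DPS

/-- polynomials in a symmetric operator are symmetric -/
theorem sym_aeval {ι : Type} [Fintype ι] (T : (ι → ℝ) →ₗ[ℝ] (ι → ℝ))
    (hT : ∀ f g : ι → ℝ, ∑ i, T f i * g i = ∑ i, f i * T g i) (q : ℝ[X]) :
    ∀ f g : ι → ℝ, ∑ i, (aeval T q f) i * g i = ∑ i, f i * (aeval T q g) i := by
  induction q using Polynomial.induction_on' with
  | add p q hp hq =>
    intro f g
    rw [map_add]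
    simp only [LinearMap.add_apply, Pi.add_apply, add_mul, mul_add, Finset.sum_add_distrib]
    rw [hp, hq]
  | monomial n a =>
    intro f g
    rw [aeval_monomial]
    have hpow : ∀ m : ℕ, ∀ f g : ι → ℝ, ∑ i, ((T ^ m) f) i * g i = ∑ i, f i * ((T ^ m) g) i := by
      intro m
      induction m with
      | zero => intro f g; simp
      | succ m ih =>
        intro f g
        have e1 : (T ^ (m + 1)) f = (T ^ m) (T f) := by
          rw [pow_succ]; rfl
        have e2 : (T ^ (m + 1)) g = T ((T ^ m) g) := by
          rw [pow_succ']; rfl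
        rw [e1, e2, ih, hT]
    have h1 : ∀ h : ι → ℝ, ((algebraMap ℝ (Module.End ℝ (ι → ℝ)) a * T ^ n) h) =
        a • ((T ^ n) h) := by
      intro h
      rw [← Algebra.smul_def]
      rfl
    rw [h1, h1]
    simp only [Pi.smul_apply, smul_eq_mul]
    have h2 := hpow n f g
    calc ∑ i, a * ((T ^ n) f) i * g i = a * ∑ i, ((T ^ n) f) i * g i := by
          rw [Finset.mul_sum]
          exact Finset.sum_congr rfl fun i _ => by ring
      _ = a * ∑ i, f i * ((T ^ n) g) i := by rw [h2]
      _ = ∑ i, f i * (a * ((T ^ n) g) i) := by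
          rw [Finset.mul_sum]
          exact Finset.sum_congr rfl fun i _ => by ring

/-- SPE -/
theorem spe : SPEStmt := by
  classical
  intro ι _ T hT s v hv h0 p hp w
  have hnod : aeval T (Lagrange.nodal s v) = 0 := by
    have h1 : ∏ l ∈ s, (C (v l) - X) = C ((-1 : ℝ) ^ s.card) * Lagrange.nodal s v := by
      rw [Lagrange.nodal_eq, ← Finset.prod_const, map_prod, ← Finset.prod_mul_distrib]
      refine Finset.prod_congr rfl fun l _ => ?_
      simp
    rw [h1, map_mul, aeval_C] at h0
    have h2 : ((-1 : ℝ) ^ s.card) • (aeval T (Lagrange.nodal s v)) = 0 := by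
      rw [Algebra.smul_def]; exact h0
    exact (smul_eq_zero.1 h2).resolve_left (pow_ne_zero _ (by norm_num))
  have key : ∀ q : ℝ[X], aeval T q = ∑ l ∈ s, (q.eval (v l)) • aeval T (Lagrange.basis s v l) := by
    intro q
    have hm := Lagrange.nodal_monic (s := s) (v := v)
    have h1 := Polynomial.modByMonic_add_div q (Lagrange.nodal s v)
    have h2 : (q %ₘ Lagrange.nodal s v) = Lagrange.interpolate s v (fun l => q.eval (v l)) := by
      refine Lagrange.eq_interpolate_of_eval_eq _ hv ?_ ?_
      · have := Polynomial.degree_modByMonic_lt q hm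
        rwa [Lagrange.degree_nodal] at this
      · intro l hl
        have h3 := congrArg (Polynomial.eval (v l)) h1
        rw [eval_add, eval_mul, Lagrange.eval_nodal_at_node hl, zero_mul, add_zero] at h3
        exact h3
    have h4 : aeval T q = aeval T (q %ₘ Lagrange.nodal s v) := by
      conv_lhs => rw [← h1]
      rw [map_add, map_mul, hnod, zero_mul, add_zero]
    rw [h4, h2, Lagrange.interpolate_apply, map_sum]
    refine Finset.sum_congr rfl fun l _ => ?_
    rw [map_mul, aeval_C, Algebra.smul_def]
  have hid : ∀ l ∈ s, ∀ u : ι → ℝ, aeval T (Lagrange.basis s v l) (aeval T (Lagrange.basis s v l) u) =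
      aeval T (Lagrange.basis s v l) u := by
    intro l hl u
    have h1 := key (Lagrange.basis s v l * Lagrange.basis s v l)
    have h2 : ∑ m ∈ s, ((Lagrange.basis s v l * Lagrange.basis s v l).eval (v m)) •
        aeval T (Lagrange.basis s v m) = aeval T (Lagrange.basis s v l) := by
      rw [Finset.sum_eq_single l]
      · rw [eval_mul, Lagrange.eval_basis_self hv hl, mul_one, one_smul]
      · intro m hm hne
        rw [eval_mul, Lagrange.eval_basis_of_ne (Ne.symm hne) hm, zero_mul, zero_smul]
      · intro h; exact absurd hl h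
    rw [h2, map_mul] at h1
    exact congrArg (fun L => L u) h1
  rw [key p]
  simp only [LinearMap.sum_apply, LinearMap.smul_apply, Finset.sum_apply, Pi.smul_apply,
    smul_eq_mul, Finset.mul_sum]
  rw [Finset.sum_comm]
  refine Finset.sum_nonneg fun l hl => ?_
  have h1 : ∑ i, w i * (p.eval (v l) * (aeval T (Lagrange.basis s v l) w) i) =
      p.eval (v l) * ∑ i, w i * (aeval T (Lagrange.basis s v l) w) i := by
    rw [Finset.mul_sum]
    exact Finset.sum_congr rfl fun i _ => by ring
  rw [h1]
  refine mul_nonneg (hp l hl) ?_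
  have h2 := sym_aeval T hT (Lagrange.basis s v l) w (aeval T (Lagrange.basis s v l) w)
  rw [hid l hl w] at h2
  rw [← h2]
  exact Finset.sum_nonneg fun i _ => mul_self_nonneg _

end Pool.Agent.DPS.H56
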